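import Mathlib

/-!
# The L-hitting numbers of the 2-3 grid: `f_45 < h_45`

`f_n` is the least size of a subset of the first `n` numbers `2^i 3^j` which meets every triple
`{x, 2x, 3x}` of these numbers, and `h_n` is the size of the best set obtained from a residue class
of `i - j` modulo `3`. We show `f_45 ≤ 14 < 15 = h_45`.
-/

set_option autoImplicit false

namespace Pool.Agent.Results.MP_2eb2b4_co.FortyFive

/-- `m` is of the form `2 ^ i * 3 ^ j`. -/
def IsSmooth (m : ℕ) : Prop := ∃ i j : ℕ, m = 2 ^ i * 3 ^ j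

/-- `a n`, for `n ≥ 1`, is the `n`-th number of the form `2 ^ i * 3 ^ j` in increasing order. -/
noncomputable def a (n : ℕ) : ℕ := Nat.nth IsSmooth (n - 1)

/-- `A n = {a 1, ..., a n}`. -/
noncomputable def A (n : ℕ) : Finset ℕ := (Finset.Icc 1 n).image a

/-- `H` is a subset of `A n` which meets every L-configuration
`{2 ^ i * 3 ^ j, 2 ^ (i + 1) * 3 ^ j, 2 ^ i * 3 ^ (j + 1)}` contained in `A n`. -/
def IsHitting (n : ℕ) (H : Finset ℕ) : Prop :=
  H ⊆ A n ∧ ∀ i j : ℕ, ({2 ^ i * 3 ^ j, 2 ^ (i + 1) * 3 ^ j, 2 ^ i * 3 ^ (j + 1)} : Finset ℕ) ⊆ A n →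
    (H ∩ {2 ^ i * 3 ^ j, 2 ^ (i + 1) * 3 ^ j, 2 ^ i * 3 ^ (j + 1)}).Nonempty

/-- The L-hitting number: the minimum size of a hitting set. -/
noncomputable def f (n : ℕ) : ℕ := sInf {c : ℕ | ∃ H : Finset ℕ, IsHitting n H ∧ H.card = c}

open Classical in
/-- `B n k` is the set of all `2 ^ i * 3 ^ j` in `A n` with `i - j ≡ k` modulo `3`. -/
noncomputable def B (n k : ℕ) : Finset ℕ :=
  (A n).filter fun m => ∃ i j : ℕ, m = 2 ^ i * 3 ^ j ∧ ((i : ℤ) - j ≡ k [ZMOD 3])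

open Classical in
/-- The powers of two `2 ^ i` in `B n k` with `i ≥ 1`, `i ≡ k` modulo `3` and
`2 ^ (i - 1) * 3` not in `A n`. -/
noncomputable def Bt (n k : ℕ) : Finset ℕ :=
  (B n k).filter fun m => ∃ i : ℕ, 1 ≤ i ∧ i ≡ k [MOD 3] ∧ m = 2 ^ i ∧ 2 ^ (i - 1) * 3 ∉ A n

/-- `h n` is the minimum of `|B n k| - |Bt n k|` over `k = 0, 1, 2`. -/
noncomputable def h (n : ℕ) : ℕ :=
  (Finset.range 3).inf' (by simp) fun k => (B n k).card - (Bt n k).card

/-! ### The first 45 numbers -/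

lemma smooth_iff {m : ℕ} (hm : m < 2048) : IsSmooth m ↔ m ∣ 6 ^ 11 := by
  constructor
  · rintro ⟨i, j, rfl⟩
    have hi : i ≤ 11 := by
      by_contra hcon
      have h1 : 2 ^ 12 ≤ 2 ^ i := Nat.pow_le_pow_right (by norm_num) (by omega)
      have h2 : 1 ≤ 3 ^ j := Nat.one_le_pow _ _ (by norm_num)
      nlinarith
    have hj : j ≤ 11 := by
      by_contra hcon
      have h1 : 3 ^ 12 ≤ 3 ^ j := Nat.pow_le_pow_right (by norm_num) (by omega)
      have h2 : 1 ≤ 2 ^ i := Nat.one_le_pow _ _ (by norm_num)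
      nlinarith
    have : (6 : ℕ) ^ 11 = 2 ^ 11 * 3 ^ 11 := by norm_num
    rw [this]
    exact Nat.mul_dvd_mul (Nat.pow_dvd_pow _ hi) (Nat.pow_dvd_pow _ hj)
  · intro hd
    have : (6 : ℕ) ^ 11 = 2 ^ 11 * 3 ^ 11 := by norm_num
    rw [this] at hd
    obtain ⟨x, y, hx, hy, rfl⟩ := (Nat.dvd_mul).1 hd
    obtain ⟨i, -, rfl⟩ := (Nat.dvd_prime_pow Nat.prime_two).1 hx
    obtain ⟨j, -, rfl⟩ := (Nat.dvd_prime_pow Nat.prime_three).1 hy
    exact ⟨i, j, rfl⟩

lemma infinite_smooth : (Set.ofPred IsSmooth).Infinite := by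
  refine Set.infinite_of_injective_forall_mem (f := fun i : ℕ => 2 ^ i)
    (Nat.pow_right_injective le_rfl) fun i => ?_
  exact ⟨i, 0, by simp⟩

/-- The members of `A 45`. -/
def S : Finset ℕ := (Finset.range 1537).filter (· ∣ 6 ^ 11)

lemma mem_S {m : ℕ} : m ∈ S ↔ m < 1537 ∧ IsSmooth m := by
  rw [S, Finset.mem_filter, Finset.mem_range]
  constructor
  · rintro ⟨h1, h2⟩
    exact ⟨h1, (smooth_iff (by omega)).2 h2⟩
  · rintro ⟨h1, h2⟩
    exact ⟨h1, (smooth_iff (by omega)).1 h2⟩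

lemma card_S : S.card = 45 := by decide +kernel

open Classical in
lemma count_smooth : Nat.count IsSmooth 1537 = 45 := by
  rw [Nat.count_eq_card_filter_range]
  have h : (Finset.range 1537).filter IsSmooth = S := by
    ext m
    rw [mem_S, Finset.mem_filter, Finset.mem_range]
  rw [h, card_S]

open Classical in
lemma A_eq : A 45 = S := by
  ext m
  rw [mem_S, A, Finset.mem_image]
  constructor
  · rintro ⟨n, hn, rfl⟩
    rw [Finset.mem_Icc] at hn
    refine ⟨?_, Nat.nth_mem_of_infinite infinite_smooth _⟩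
    exact Nat.nth_lt_of_lt_count (by rw [count_smooth]; omega)
  · rintro ⟨h1, h2⟩
    refine ⟨Nat.count IsSmooth m + 1, ?_, ?_⟩
    · rw [Finset.mem_Icc]
      have : Nat.count IsSmooth (m + 1) ≤ Nat.count IsSmooth 1537 :=
        Nat.count_monotone _ (by omega)
      rw [count_smooth, Nat.count_succ, if_pos h2] at this
      omega
    · simp only [a, Nat.add_sub_cancel]
      exact Nat.nth_count h2

/-! ### The hitting set -/

/-- The hitting set. -/
def H₀ : Finset ℕ := {3, 4, 18, 24, 32, 81, 108, 144, 192, 384, 486, 512, 648, 864}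

lemma hitting_H₀ : IsHitting 45 H₀ := by
  rw [IsHitting, A_eq]
  refine ⟨by decide +kernel, fun i j hsub => ?_⟩
  have h1 : 2 ^ i * 3 ^ j ∈ S := hsub (by simp)
  have h2 : 2 ^ i * 3 ^ (j + 1) ∈ S := hsub (by simp)
  have key : ∀ x ∈ S, 3 * x ∈ S → (H₀ ∩ {x, 2 * x, 3 * x}).Nonempty := by decide +kernel
  have e1 : 2 ^ (i + 1) * 3 ^ j = 2 * (2 ^ i * 3 ^ j) := by ring
  have e2 : 2 ^ i * 3 ^ (j + 1) = 3 * (2 ^ i * 3 ^ j) := by ring
  rw [e1, e2]
  rw [e2] at h2
  exact key _ h1 h2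

lemma f_le : f 45 ≤ 14 := Nat.sInf_le ⟨H₀, hitting_H₀, by decide +kernel⟩

/-! ### The value of `h` -/

lemma exp_unique {i j i' j' : ℕ} (h : 2 ^ i * 3 ^ j = 2 ^ i' * 3 ^ j') : i = i' ∧ j = j' := by
  have hp2 : ∀ i j : ℕ, (2 ^ i * 3 ^ j).factorization 2 = i := by
    intro i j
    rw [Nat.factorization_mul (by positivity) (by positivity), Nat.factorization_pow,
      Nat.factorization_pow]
    simp [Nat.prime_two.factorization, Nat.prime_three.factorization]
  have hp3 : ∀ i j : ℕ, (2 ^ i * 3 ^ j).factorization 3 = j := by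
    intro i j
    rw [Nat.factorization_mul (by positivity) (by positivity), Nat.factorization_pow,
      Nat.factorization_pow]
    simp [Nat.prime_two.factorization, Nat.prime_three.factorization]
  exact ⟨by rw [← hp2 i j, h, hp2], by rw [← hp3 i j, h, hp3]⟩

/-- The candidates for the members of `B 45 k`. -/
def B₀ (k : ℕ) : Finset ℕ :=
  ((Finset.range 12 ×ˢ Finset.range 12).filter fun p =>
    (2 ^ p.1 * 3 ^ p.2 < 1537 ∧ (p.1 + 2 * p.2) % 3 = k)).image fun p => 2 ^ p.1 * 3 ^ p.2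

open Classical in
lemma B_eq {k : ℕ} (hk : k < 3) : B 45 k = B₀ k := by
  ext m
  rw [B, A_eq, Finset.mem_filter, mem_S, B₀, Finset.mem_image]
  constructor
  · rintro ⟨⟨h1, -⟩, i, j, rfl, h3⟩
    refine ⟨(i, j), ?_, rfl⟩
    rw [Finset.mem_filter, Finset.mem_product, Finset.mem_range, Finset.mem_range]
    have hi : i < 12 := by
      by_contra hcon
      have h1' : 2 ^ 12 ≤ 2 ^ i := Nat.pow_le_pow_right (by norm_num) (by omega)
      have h2 : 1 ≤ 3 ^ j := Nat.one_le_pow _ _ (by norm_num)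
      nlinarith
    have hj : j < 12 := by
      by_contra hcon
      have h1' : 3 ^ 12 ≤ 3 ^ j := Nat.pow_le_pow_right (by norm_num) (by omega)
      have h2 : 1 ≤ 2 ^ i := Nat.one_le_pow _ _ (by norm_num)
      nlinarith
    refine ⟨⟨hi, hj⟩, h1, ?_⟩
    have h4 : ((i : ℤ) - j) % 3 = (k : ℤ) % 3 := h3
    show (i + 2 * j) % 3 = k
    omega
  · rintro ⟨⟨i, j⟩, hp, rfl⟩
    rw [Finset.mem_filter] at hp
    obtain ⟨-, h1, h2⟩ := hp
    refine ⟨⟨h1, i, j, rfl⟩, i, j, rfl, ?_⟩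
    show ((i : ℤ) - j) % 3 = (k : ℤ) % 3
    have h3 : (i + 2 * j) % 3 = k := h2
    omega

open Classical in
lemma Bt_eq (k : ℕ) : Bt 45 k = ∅ := by
  rw [Bt, Finset.filter_eq_empty_iff]
  rintro m hm ⟨i, hi1, -, rfl, hi⟩
  rw [B, Finset.mem_filter, A_eq] at hm
  rw [A_eq] at hi
  have hi11 : i < 12 := by
    by_contra hcon
    have h1' : 2 ^ 12 ≤ 2 ^ i := Nat.pow_le_pow_right (by norm_num) (by omega)
    have := (mem_S.1 hm.1).1
    omega
  have key : ∀ i < 12, 1 ≤ i → 2 ^ i ∈ S → 2 ^ (i - 1) * 3 ∈ S := by decide +kernel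
  exact hi (key i hi11 hi1 hm.1)

lemma h_eq : h 45 = 15 := by
  have hc : ∀ k < 3, (B₀ k).card = 15 := by decide +kernel
  have hv : ∀ k ∈ Finset.range 3, (B 45 k).card - (Bt 45 k).card = 15 := by
    intro k hk
    rw [Finset.mem_range] at hk
    rw [Bt_eq, B_eq hk, hc k hk, Finset.card_empty]
  rw [h, Finset.inf'_congr _ rfl hv]
  simp

/-- The formula `f n = h n` fails for `n = 45`: here `f 45 ≤ 14` and `h 45 = 15`. -/
theorem result : f 45 ≤ 14 ∧ h 45 = 15 ∧ ¬ ∀ n : ℕ, 1 ≤ n → f n = h n := by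
  refine ⟨f_le, h_eq, fun hcon => ?_⟩
  have h1 := hcon 45 (by norm_num)
  have h2 := f_le
  rw [h1, h_eq] at h2
  omega

end Pool.Agent.Results.MP_2eb2b4_co.FortyFive
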